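import Mathlib

/-!
A Kunen-type construction: two nonprincipal ultrafilters `u`, `v` on `ℕ` such that neither lies
in the closure of a countable set of nonprincipal Rudin-Keisler predecessors of the other.
-/

namespace Pool.Agent.Lib.MP_6ed562_lc

open Filter Set Cardinal

/-- Index set of the matrix. -/
abbrev B := ℕ → Bool

/-- The countable set carrying the matrix. -/
abbrev Pt := Σ n : ℕ, ((Fin n → Bool) → (Fin n → Bool))

/-- Restriction of a binary sequence. -/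
def res (a : B) (n : ℕ) : Fin n → Bool := fun i => a i

instance : Infinite Pt :=
  Infinite.of_injective (fun n : ℕ => (⟨n, id⟩ : Pt)) (fun _ _ h => congrArg Sigma.fst h)

/-- An enumeration of `Pt`. -/
noncomputable def enum : ℕ ≃ Pt := (nonempty_denumerable Pt).some.eqv.symm

/-- The matrix entry in row `a` and column `b`. -/
def X (a b : B) : Set ℕ := {k | (enum k).2 (res b _) = res a _}

lemma level_finite (n : ℕ) : {k : ℕ | (enum k).1 ≤ n}.Finite := by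
  have h : {p : Pt | p.1 ≤ n}.Finite := by
    have : {p : Pt | p.1 ≤ n} ⊆
        ⋃ m ∈ Set.Iic n, Set.range (fun φ : (Fin m → Bool) → (Fin m → Bool) => (⟨m, φ⟩ : Pt)) := by
      rintro ⟨m, φ⟩ hm
      simp only [mem_iUnion]
      exact ⟨m, hm, φ, rfl⟩
    exact ((Set.finite_Iic n).biUnion (fun m _ => Set.finite_range _)).subset this
  exact h.preimage (f := enum) enum.injective.injOn

lemma X_ad {a a' : B} (h : a ≠ a') (b : B) : (X a b ∩ X a' b).Finite := by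
  obtain ⟨i, hi⟩ := Function.ne_iff.1 h
  refine (level_finite i).subset ?_
  rintro k ⟨h1, h2⟩
  simp only [X, mem_ofPred_eq] at h1 h2 ⊢
  by_contra hlt
  push Not at hlt
  have := congrFun (h1.symm.trans h2) ⟨i, hlt⟩
  exact hi this

/-- A finite combination of matrix entries from distinct columns. -/
def Comb (s : Finset B) (σ : B → B) : Set ℕ := {k | ∀ b ∈ s, k ∈ X (σ b) b}

lemma exists_sep (s : Finset B) : ∃ N : ℕ, ∀ n ≥ N, ∀ b ∈ s, ∀ b' ∈ s, res b n = res b' n → b = b' := by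
  classical
  have h : ∀ p : B × B, ∃ N : ℕ, ∀ n ≥ N, res p.1 n = res p.2 n → p.1 = p.2 := by
    rintro ⟨b, b'⟩
    by_cases hb : b = b'
    · exact ⟨0, fun _ _ _ => hb⟩
    · obtain ⟨i, hi⟩ := Function.ne_iff.1 hb
      refine ⟨i + 1, fun n hn he => ?_⟩
      exact absurd (congrFun he ⟨i, hn⟩) hi
  choose N hN using h
  refine ⟨(s ×ˢ s).sup N, fun n hn b hb b' hb' he => hN (b, b') n ?_ he⟩
  exact le_trans (Finset.le_sup (f := N) (Finset.mem_product.2 ⟨hb, hb'⟩)) hn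

lemma Comb_infinite (s : Finset B) (σ : B → B) : (Comb s σ).Infinite := by
  classical
  obtain ⟨N, hN⟩ := exists_sep s
  have key : ∀ n : ℕ, ∃ φ : (Fin (N + n) → Bool) → (Fin (N + n) → Bool),
      ∀ b ∈ s, φ (res b _) = res (σ b) _ := by
    intro n
    refine ⟨fun t => if h : ∃ b ∈ s, res b _ = t then res (σ h.choose) _ else t, fun b hb => ?_⟩
    have h : ∃ b' ∈ s, res b' (N + n) = res b (N + n) := ⟨b, hb, rfl⟩
    simp only [dif_pos h]
    rw [hN (N + n) (Nat.le_add_right _ _) _ h.choose_spec.1 b hb h.choose_spec.2]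
  choose φ hφ using key
  refine Set.infinite_of_injective_forall_mem
    (f := fun n : ℕ => enum.symm ⟨N + n, φ n⟩) ?_ ?_
  · intro m n h
    have := congrArg Sigma.fst (enum.symm.injective h)
    simpa using this
  · intro n b hb
    simp only [X, mem_ofPred_eq]
    have : enum (enum.symm ⟨N + n, φ n⟩) = ⟨N + n, φ n⟩ := enum.apply_symm_apply _
    rw [this]
    exact hφ n b hb

/-- The columns in `K` are independent modulo the filter `F`. -/
def Indep (F : Filter ℕ) (K : Set B) : Prop :=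
  ∀ (s : Finset B) (σ : B → B), (↑s : Set B) ⊆ K → ∀ A ∈ F, (A ∩ Comb s σ).Nonempty

lemma Indep.mono {F : Filter ℕ} {K K' : Set B} (h : Indep F K) (hK : K' ⊆ K) : Indep F K' :=
  fun s σ hs => h s σ (hs.trans hK)

lemma indep_cofinite (K : Set B) : Indep cofinite K := by
  intro s σ _ A hA
  have h1 : (Comb s σ \ Aᶜ).Infinite := (Comb_infinite s σ).sdiff (mem_cofinite.1 hA)
  obtain ⟨k, hk1, hk2⟩ := h1.nonempty
  exact ⟨k, not_not.1 hk2, hk1⟩

lemma Comb_union {s t : Finset B} (σ τ : B → B) (h : Disjoint s t) :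
    ∃ (r : Finset B) (ρ : B → B), (↑r : Set B) = ↑s ∪ ↑t ∧ Comb r ρ = Comb s σ ∩ Comb t τ := by
  classical
  refine ⟨s ∪ t, fun b => if b ∈ s then σ b else τ b, by simp, ?_⟩
  ext k
  simp only [Comb, Finset.mem_union, mem_ofPred_eq, mem_inter_iff]
  constructor
  · intro hk
    refine ⟨fun b hb => ?_, fun b hb => ?_⟩
    · simpa [hb] using hk b (Or.inl hb)
    · have : b ∉ s := fun hb' => Finset.disjoint_left.1 h hb' hb
      simpa [this] using hk b (Or.inr hb)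
  · rintro ⟨h1, h2⟩ b hb
    by_cases hs : b ∈ s
    · simpa [hs] using h1 b hs
    · simpa [hs] using h2 b (hb.resolve_left hs)

/-- Zorn: a finest filter keeping `K` independent; then positive sets contain combinations. -/
lemma exists_maximal {G : Filter ℕ} {K : Set B} (h : Indep G K) :
    ∃ G₁ ≤ G, Indep G₁ K ∧ ∀ Y : Set ℕ, Yᶜ ∉ G₁ →
      ∃ (s : Finset B) (σ : B → B), (↑s : Set B) ⊆ K ∧ (Comb s σ)ᶜ ∪ Y ∈ G₁ := by
  obtain ⟨m, hm, hmax⟩ := @zorn_le_nonempty₀ (Filter ℕ)ᵒᵈ _ {F | Indep F K} (by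
    intro c hc hch y hy
    refine ⟨OrderDual.toDual (⨅ F ∈ c, OrderDual.ofDual F), ?_,
      fun z hz => (biInf_le (fun F : (Filter ℕ)ᵒᵈ => OrderDual.ofDual F) hz :)⟩
    intro s σ hs A hA
    have hd : DirectedOn ((fun F : (Filter ℕ)ᵒᵈ => OrderDual.ofDual F) ⁻¹'o (· ≥ ·)) c := by
      intro a ha b hb
      rcases hch.total ha hb with hab | hab
      · exact ⟨b, hb, hab, le_rfl⟩
      · exact ⟨a, ha, le_rfl, hab⟩
    obtain ⟨F, hF, hAF⟩ := (mem_biInf_of_directed hd ⟨y, hy⟩).1 hA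
    exact hc hF s σ hs A hAF) G h
  refine ⟨m, hm, hmax.1, fun Y hY => ?_⟩
  by_contra hcon
  push Not at hcon
  have hI : Indep (@min (Filter ℕ) _ m (𝓟 Yᶜ)) K := by
    intro s σ hs A hA
    obtain ⟨A₁, hA₁, A₂, hA₂, rfl⟩ := mem_inf_iff.1 hA
    by_contra hne
    apply hcon s σ hs
    refine mem_of_superset hA₁ fun k hk => ?_
    by_contra hk'
    simp only [mem_union, mem_compl_iff, not_or, not_not] at hk'
    exact hne ⟨k, ⟨hk, hA₂ hk'.2⟩, hk'.1⟩
  have h2 := hmax.2 (y := @min (Filter ℕ) _ m (𝓟 Yᶜ)) hI (inf_le_left (α := Filter ℕ))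
  have h3 : @LE.le (Filter ℕ) _ m (𝓟 Yᶜ) := le_trans (α := Filter ℕ) h2 inf_le_right
  exact hY (le_principal_iff.1 h3)

/-- The task `f` is handled by the pair of filters `F`, `G`. -/
def Handled (F G : Filter ℕ) (f : ℕ → ℕ → ℕ) : Prop :=
  ∀ u v : Ultrafilter ℕ, (u : Filter ℕ) ≤ F → (v : Filter ℕ) ≤ G →
    (∀ n, ((v.map (f n) : Ultrafilter ℕ) : Filter ℕ) ≤ cofinite) →
      ∃ A ∈ u, ∀ n, A ∉ v.map (f n)

lemma Handled.mono {F G F' G' : Filter ℕ} {f : ℕ → ℕ → ℕ} (h : Handled F G f) (hF : F' ≤ F)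
    (hG : G' ≤ G) : Handled F' G' f :=
  fun u v hu hv => h u v (hu.trans hF) (hv.trans hG)

lemma not_countable_B : ¬ (Set.univ : Set B).Countable := by
  rw [Set.countable_univ_iff, ← Cardinal.mk_le_aleph0_iff, not_le]
  simp only [B, mk_pi, prod_const, mk_fintype, Fintype.card_bool, Nat.cast_ofNat, lift_ofNat,
    mk_eq_aleph0, lift_id]
  exact cantor _

/-- One half-step of the construction. -/
lemma step {F G : Filter ℕ} {K : Set B} (hF : Indep F K) (hG : Indep G K) {b : B} (hb : b ∈ K)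
    (f : ℕ → ℕ → ℕ) :
    ∃ F' ≤ F, ∃ G' ≤ G, ∃ C : Set B, C.Countable ∧ Indep F' (K \ C) ∧ Indep G' (K \ C) ∧
      Handled F' G' f := by
  classical
  obtain ⟨G₁, hG₁, hI, hM⟩ := exists_maximal hG
  have one : ∀ (g : ℕ → ℕ) (p : {p : Finset B × (B → B) // (↑p.1 : Set B) ⊆ K}),
      ∃ q : {p : Finset B × (B → B) // (↑p.1 : Set B) ⊆ K}, ∃ a : B,
        (Comb q.1.1 q.1.2)ᶜ ∪ Comb p.1.1 p.1.2 ∈ G₁ ∧
        ∀ v : Ultrafilter ℕ, (v : Filter ℕ) ≤ G₁ → Comb q.1.1 q.1.2 ∈ v →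
          ((v.map g : Ultrafilter ℕ) : Filter ℕ) ≤ cofinite → ∀ a' ≠ a, X a' b ∉ v.map g := by
    intro g p
    by_cases hA : ∃ a : B, (g ⁻¹' X a b ∩ Comb p.1.1 p.1.2)ᶜ ∉ G₁
    · obtain ⟨a, ha⟩ := hA
      obtain ⟨s, σ, hs, hsub⟩ := hM _ ha
      refine ⟨⟨(s, σ), hs⟩, a, ?_, ?_⟩
      · refine mem_of_superset hsub ?_
        rintro k (hk | hk)
        · exact Or.inl hk
        · exact Or.inr hk.2
      · intro v hv hq hcof a' ha' hmem
        have h1 : g ⁻¹' X a b ∈ v := by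
          have : Comb s σ ∩ ((Comb s σ)ᶜ ∪ (g ⁻¹' X a b ∩ Comb p.1.1 p.1.2)) ∈ (v : Filter ℕ) :=
            inter_mem hq (hv hsub)
          refine mem_of_superset this ?_
          rintro k ⟨hk1, hk2 | hk2⟩
          · exact absurd hk1 hk2
          · exact hk2.1
        have h2 : X a' b ∩ X a b ∈ ((v.map g : Ultrafilter ℕ) : Filter ℕ) :=
          inter_mem hmem (Ultrafilter.mem_map.2 h1)
        have h3 : (X a' b ∩ X a b)ᶜ ∈ ((v.map g : Ultrafilter ℕ) : Filter ℕ) :=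
          hcof (mem_cofinite.2 (by simpa using X_ad ha' b))
        exact (Ultrafilter.compl_mem_iff_notMem.1 h3) h2
    · push Not at hA
      refine ⟨p, b, by simp, ?_⟩
      intro v hv hq _ a' _ hmem
      have h1 : g ⁻¹' X a' b ∩ Comb p.1.1 p.1.2 ∈ (v : Filter ℕ) :=
        inter_mem (Ultrafilter.mem_map.1 hmem) hq
      exact (Ultrafilter.compl_mem_iff_notMem.1 (hv (hA a'))) h1
  choose nxt al hnxt hal using one
  let seq : ℕ → {p : Finset B × (B → B) // (↑p.1 : Set B) ⊆ K} :=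
    fun n => Nat.rec ⟨(∅, id), by simp⟩ (fun n p => nxt (f n) p) n
  have hseq : ∀ n, seq (n + 1) = nxt (f n) (seq n) := fun n => rfl
  let D : ℕ → Set ℕ := fun n => Comb (seq n).1.1 (seq n).1.2
  have hD : ∀ n, (D (n + 1))ᶜ ∪ D n ∈ G₁ := fun n => hnxt (f n) (seq n)
  have hD' : ∀ n m, n ≤ m → (D m)ᶜ ∪ D n ∈ G₁ := by
    intro n m hnm
    induction hnm with
    | refl => simp
    | @step m _ ih =>
      refine mem_of_superset (inter_mem ih (hD m)) ?_
      rintro k ⟨h1, h2 | h2⟩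
      · exact Or.inl h2
      · rcases h1 with h1 | h1
        · exact absurd h2 h1
        · exact Or.inr h1
  obtain ⟨a, ha⟩ : ∃ a : B, a ∉ Set.range (fun n => al (f n) (seq n)) := by
    by_contra hcon
    push Not at hcon
    exact not_countable_B ((Set.countable_range _).mono fun a _ => hcon a)
  let H : ℕ → Filter ℕ := fun n => G₁ ⊓ 𝓟 (D n)
  have hH : ∀ n m, n ≤ m → H m ≤ H n := by
    intro n m hnm
    refine le_inf inf_le_left (le_principal_iff.2 ?_)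
    have : ((D m)ᶜ ∪ D n) ∩ D m ∈ H m := inter_mem_inf (hD' n m hnm) (mem_principal_self _)
    refine mem_of_superset this ?_
    rintro k ⟨h1 | h1, h2⟩
    · exact absurd h2 h1
    · exact h1
  have hdir : Directed (· ≥ ·) H := fun n m =>
    ⟨max n m, hH _ _ (le_max_left _ _), hH _ _ (le_max_right _ _)⟩
  refine ⟨F ⊓ 𝓟 (X a b), inf_le_left, ⨅ n, H n,
    ((iInf_le H 0).trans inf_le_left).trans hG₁,
    {b} ∪ ⋃ n, (↑(seq n).1.1 : Set B),
    (Set.countable_singleton b).union (Set.countable_iUnion fun n => (seq n).1.1.countable_toSet),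
    ?_, ?_, ?_⟩
  · intro s σ hs A hA
    obtain ⟨A₁, hA₁, A₂, hA₂, rfl⟩ := mem_inf_iff.1 hA
    have hdisj : Disjoint s {b} := by
      rw [Finset.disjoint_singleton_right]
      intro hbs
      exact (hs hbs).2 (Or.inl rfl)
    obtain ⟨r, ρ, hr, hρ⟩ := Comb_union σ (fun _ => a) hdisj
    have hrK : (↑r : Set B) ⊆ K := by
      rw [hr]
      rintro x (hx | hx)
      · exact (hs hx).1
      · have : x = b := by simpa using hx
        exact this ▸ hb
    obtain ⟨k, hk1, hk2⟩ := hF r ρ hrK A₁ hA₁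
    rw [hρ] at hk2
    exact ⟨k, ⟨hk1, hA₂ (hk2.2 b (by simp))⟩, hk2.1⟩
  · intro s σ hs A hA
    obtain ⟨n, hn⟩ := (mem_iInf_of_directed hdir A).1 hA
    obtain ⟨A₁, hA₁, A₂, hA₂, rfl⟩ := mem_inf_iff.1 hn
    have hdisj : Disjoint s (seq n).1.1 := by
      rw [Finset.disjoint_left]
      intro x hx hx'
      exact (hs hx).2 (Or.inr (mem_iUnion.2 ⟨n, hx'⟩))
    obtain ⟨r, ρ, hr, hρ⟩ := Comb_union σ (seq n).1.2 hdisj
    have hrK : (↑r : Set B) ⊆ K := by
      rw [hr]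
      rintro x (hx | hx)
      · exact (hs hx).1
      · exact (seq n).2 hx
    obtain ⟨k, hk1, hk2⟩ := hI r ρ hrK A₁ hA₁
    rw [hρ] at hk2
    exact ⟨k, ⟨hk1, hA₂ hk2.2⟩, hk2.1⟩
  · intro u v hu hv hcof
    refine ⟨X a b, hu (mem_inf_of_right (mem_principal_self _)), fun n => ?_⟩
    have h1 : (v : Filter ℕ) ≤ H (n + 1) := hv.trans (iInf_le H (n + 1))
    refine hal (f n) (seq n) v (h1.trans inf_le_left) ?_ (hcof n) a ?_
    · exact h1 (mem_inf_of_right (mem_principal_self _))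
    · intro h
      exact ha ⟨n, h.symm⟩

lemma mk_B : #B = 𝔠 := by
  simp [B]

lemma fresh {U C : Set B} (hU : #U < 𝔠) (hC : C.Countable) : ∃ b, b ∈ Uᶜ \ C := by
  by_contra hcon
  push Not at hcon
  have h1 : U ∪ C = Set.univ := by
    ext b
    have := hcon b
    simp only [Set.mem_sdiff, mem_compl_iff, not_and, not_not] at this
    simp only [mem_union, mem_univ, iff_true]
    by_cases hb : b ∈ U
    · exact Or.inl hb
    · exact Or.inr (this hb)
  have h2 : #(U ∪ C : Set B) < 𝔠 := by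
    refine (mk_union_le U C).trans_lt ?_
    refine add_lt_of_lt aleph0_le_continuum hU ?_
    exact (Cardinal.le_aleph0_iff_set_countable.2 hC).trans_lt aleph0_lt_continuum
  rw [h1, mk_univ, mk_B] at h2
  exact lt_irrefl _ h2

/-- A full step: both directions. -/
lemma step₂ {F G : Filter ℕ} {U : Set B} (hU : #U < 𝔠) (hF : Indep F Uᶜ) (hG : Indep G Uᶜ)
    (f : ℕ → ℕ → ℕ) :
    ∃ F' ≤ F, ∃ G' ≤ G, ∃ C : Set B, C.Countable ∧ Indep F' (Uᶜ \ C) ∧ Indep G' (Uᶜ \ C) ∧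
      Handled F' G' f ∧ Handled G' F' f := by
  obtain ⟨b, hb⟩ := fresh hU Set.countable_empty
  obtain ⟨F₁, hF₁, G₁, hG₁, C₁, hC₁, iF, iG, h₁⟩ := step hF hG hb.1 f
  obtain ⟨b', hb'⟩ := fresh hU hC₁
  obtain ⟨G₂, hG₂, F₂, hF₂, C₂, hC₂, iG', iF', h₂⟩ := step iG iF hb' f
  refine ⟨F₂, hF₂.trans hF₁, G₂, hG₂.trans hG₁, C₁ ∪ C₂, hC₁.union hC₂, ?_, ?_,
    h₁.mono hF₂ hG₂, h₂⟩
  · rwa [← sdiff_sdiff]
  · rwa [← sdiff_sdiff]

lemma exists_seq {ι S : Type} [LinearOrder ι] [WellFoundedLT ι]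
    (R : ∀ i : ι, (∀ j, j < i → S) → S → Prop) (h : ∀ i p, ∃ x, R i p x) :
    ∃ s : ι → S, ∀ i, R i (fun j _ => s j) (s i) := by
  choose c hc using h
  refine ⟨(wellFounded_lt (α := ι)).fix c, fun i => ?_⟩
  have := (wellFounded_lt (α := ι)).fix_eq c i
  rw [this]
  exact hc i _

lemma indep_limit {ι : Type} [LinearOrder ι] (J : Set ι) (F : ι → Filter ℕ) (K : Set B)
    (hc : ∀ j ∈ J, F j ≤ cofinite) (hm : ∀ j ∈ J, ∀ j' ∈ J, j < j' → F j' ≤ F j)
    (hI : ∀ j ∈ J, Indep (F j) K) : Indep (cofinite ⊓ ⨅ j ∈ J, F j) K := by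
  rcases J.eq_empty_or_nonempty with rfl | hne
  · simpa using indep_cofinite K
  · obtain ⟨j₀, hj₀⟩ := hne
    have h1 : (⨅ j ∈ J, F j) ≤ cofinite := (biInf_le F hj₀).trans (hc j₀ hj₀)
    rw [inf_eq_right.2 h1]
    intro s σ hs A hA
    have hd : DirectedOn (F ⁻¹'o (· ≥ ·)) J := by
      intro a ha b hb
      rcases lt_trichotomy a b with hab | rfl | hab
      · exact ⟨b, hb, hm a ha b hb hab, le_rfl⟩
      · exact ⟨a, ha, le_rfl, le_rfl⟩
      · exact ⟨a, ha, le_rfl, hm b hb a ha hab⟩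
    obtain ⟨j, hj, hAj⟩ := (mem_biInf_of_directed hd ⟨j₀, hj₀⟩).1 hA
    exact hI j hj s σ hs A hAj

theorem exists_pair : ∃ u v : Ultrafilter ℕ, (u : Filter ℕ) ≤ cofinite ∧ (v : Filter ℕ) ≤ cofinite ∧
    (∀ f : ℕ → ℕ → ℕ, (∀ n, ((v.map (f n) : Ultrafilter ℕ) : Filter ℕ) ≤ cofinite) →
      ∃ A ∈ u, ∀ n, A ∉ v.map (f n)) ∧
    (∀ f : ℕ → ℕ → ℕ, (∀ n, ((u.map (f n) : Ultrafilter ℕ) : Filter ℕ) ≤ cofinite) →
      ∃ A ∈ v, ∀ n, A ∉ u.map (f n)) := by
  let ι := (𝔠 : Cardinal.{0}).ord.ToType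
  have hι : #ι = 𝔠 := mk_ord_toType _
  have hT : #(ℕ → ℕ → ℕ) = 𝔠 := by simp
  obtain ⟨task⟩ : Nonempty (ι ≃ (ℕ → ℕ → ℕ)) := Cardinal.eq.1 (hι.trans hT.symm)
  have hlt : ∀ i : ι, #(Iio i) < 𝔠 := fun i => by
    have := mk_Iio_lt i (by rw [hι]; simp [ι])
    rwa [hι] at this
  let S := Filter ℕ × Filter ℕ × Set B
  let R : ∀ i : ι, (∀ j, j < i → S) → S → Prop := fun i p x =>
    (Indep (cofinite ⊓ ⨅ j, ⨅ h : j ∈ Iio i, (p j h).1) (⋃ j, ⋃ h : j ∈ Iio i, (p j h).2.2)ᶜ ∧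
      Indep (cofinite ⊓ ⨅ j, ⨅ h : j ∈ Iio i, (p j h).2.1) (⋃ j, ⋃ h : j ∈ Iio i, (p j h).2.2)ᶜ ∧
      ∀ j (h : j < i), (p j h).2.2.Countable) →
    (x.1 ≤ cofinite ⊓ ⨅ j, ⨅ h : j ∈ Iio i, (p j h).1) ∧
      (x.2.1 ≤ cofinite ⊓ ⨅ j, ⨅ h : j ∈ Iio i, (p j h).2.1) ∧ x.2.2.Countable ∧
      Indep x.1 ((⋃ j, ⋃ h : j ∈ Iio i, (p j h).2.2)ᶜ \ x.2.2) ∧
      Indep x.2.1 ((⋃ j, ⋃ h : j ∈ Iio i, (p j h).2.2)ᶜ \ x.2.2) ∧
      Handled x.1 x.2.1 (task i) ∧ Handled x.2.1 x.1 (task i)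
  obtain ⟨s, hs⟩ := exists_seq R (by
    intro i p
    by_cases hyp : (Indep (cofinite ⊓ ⨅ j, ⨅ h : j ∈ Iio i, (p j h).1)
        (⋃ j, ⋃ h : j ∈ Iio i, (p j h).2.2)ᶜ ∧
      Indep (cofinite ⊓ ⨅ j, ⨅ h : j ∈ Iio i, (p j h).2.1) (⋃ j, ⋃ h : j ∈ Iio i, (p j h).2.2)ᶜ ∧
      ∀ j (h : j < i), (p j h).2.2.Countable)
    · obtain ⟨h1, h2, h3⟩ := hyp
      have hU : #(⋃ j, ⋃ h : j ∈ Iio i, (p j h).2.2 : Set B) < 𝔠 := by
        have e : (⋃ j, ⋃ h : j ∈ Iio i, (p j h).2.2 : Set B) =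
            ⋃ j : Iio i, (p j.1 j.2).2.2 := by
          ext b; simp
        rw [e]
        refine (mk_iUnion_le _).trans_lt ?_
        refine mul_lt_of_lt aleph0_le_continuum (hlt i) ?_
        refine lt_of_le_of_lt (ciSup_le' fun j => ?_) aleph0_lt_continuum
        exact Cardinal.le_aleph0_iff_set_countable.2 (h3 j.1 j.2)
      obtain ⟨F', hF', G', hG', C, hC, a1, a2, a3, a4⟩ := step₂ hU h1 h2 (task i)
      exact ⟨(F', G', C), fun _ => ⟨hF', hG', hC, a1, a2, a3, a4⟩⟩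
    · exact ⟨(⊤, ⊤, ∅), fun h => absurd h hyp⟩)
  have main : ∀ i : ι,
      ((s i).1 ≤ cofinite ⊓ ⨅ j, ⨅ _ : j ∈ Iio i, (s j).1) ∧
      ((s i).2.1 ≤ cofinite ⊓ ⨅ j, ⨅ _ : j ∈ Iio i, (s j).2.1) ∧ (s i).2.2.Countable ∧
      Indep (s i).1 ((⋃ j, ⋃ _ : j ∈ Iio i, (s j).2.2)ᶜ \ (s i).2.2) ∧
      Indep (s i).2.1 ((⋃ j, ⋃ _ : j ∈ Iio i, (s j).2.2)ᶜ \ (s i).2.2) ∧
      Handled (s i).1 (s i).2.1 (task i) ∧ Handled (s i).2.1 (s i).1 (task i) := by
    intro i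
    induction i using WellFoundedLT.induction with
    | ind i ih =>
      have hsub : ∀ j ∈ Iio i, (⋃ j, ⋃ _ : j ∈ Iio i, (s j).2.2)ᶜ ⊆
          (⋃ k, ⋃ _ : k ∈ Iio j, (s k).2.2)ᶜ \ (s j).2.2 := by
        intro j hj b hb
        simp only [mem_compl_iff, mem_iUnion, not_exists, Set.mem_sdiff] at hb ⊢
        exact ⟨fun k hk => hb k (mem_Iio.2 (lt_trans (mem_Iio.1 hk) (mem_Iio.1 hj))), hb j hj⟩
      refine hs i ⟨?_, ?_, fun j hj => (ih j hj).2.2.1⟩
      · refine indep_limit (Iio i) (fun j => (s j).1) _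
          (fun j hj => (ih j hj).1.trans inf_le_left) (fun j _ j' hj' hjj => ?_)
          (fun j hj => (ih j hj).2.2.2.1.mono (hsub j hj))
        exact ((ih j' hj').1.trans inf_le_right).trans (biInf_le (fun j => (s j).1) hjj)
      · refine indep_limit (Iio i) (fun j => (s j).2.1) _
          (fun j hj => (ih j hj).2.1.trans inf_le_left) (fun j _ j' hj' hjj => ?_)
          (fun j hj => (ih j hj).2.2.2.2.1.mono (hsub j hj))
        exact ((ih j' hj').2.1.trans inf_le_right).trans (biInf_le (fun j => (s j).2.1) hjj)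
  have iF : Indep (cofinite ⊓ ⨅ j ∈ (Set.univ : Set ι), (s j).1) ∅ :=
    indep_limit Set.univ (fun j => (s j).1) _ (fun j _ => (main j).1.trans inf_le_left)
      (fun j _ j' _ hjj =>
        ((main j').1.trans inf_le_right).trans (biInf_le (fun j => (s j).1) hjj))
      (fun j _ => (main j).2.2.2.1.mono (empty_subset _))
  have iG : Indep (cofinite ⊓ ⨅ j ∈ (Set.univ : Set ι), (s j).2.1) ∅ :=
    indep_limit Set.univ (fun j => (s j).2.1) _ (fun j _ => (main j).2.1.trans inf_le_left)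
      (fun j _ j' _ hjj =>
        ((main j').2.1.trans inf_le_right).trans (biInf_le (fun j => (s j).2.1) hjj))
      (fun j _ => (main j).2.2.2.2.1.mono (empty_subset _))
  have nb : ∀ F : Filter ℕ, Indep F ∅ → F.NeBot := fun F hF =>
    forall_mem_nonempty_iff_neBot.1 fun A hA =>
      (hF ∅ id (by simp) A hA).mono inter_subset_left
  have := nb _ iF
  have := nb _ iG
  have hu := Ultrafilter.of_le (cofinite ⊓ ⨅ j ∈ (Set.univ : Set ι), (s j).1)
  have hv := Ultrafilter.of_le (cofinite ⊓ ⨅ j ∈ (Set.univ : Set ι), (s j).2.1)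
  refine ⟨_, _, hu.trans inf_le_left, hv.trans inf_le_left, fun f => ?_, fun f => ?_⟩
  · have := (main (task.symm f)).2.2.2.2.2.1
    rw [Equiv.apply_symm_apply] at this
    exact this _ _ ((hu.trans inf_le_right).trans (biInf_le (fun j => (s j).1) (mem_univ _)))
      ((hv.trans inf_le_right).trans (biInf_le (fun j => (s j).2.1) (mem_univ _)))
  · have := (main (task.symm f)).2.2.2.2.2.2
    rw [Equiv.apply_symm_apply] at this
    exact this _ _ ((hv.trans inf_le_right).trans (biInf_le (fun j => (s j).2.1) (mem_univ _)))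
      ((hu.trans inf_le_right).trans (biInf_le (fun j => (s j).1) (mem_univ _)))

end Pool.Agent.Lib.MP_6ed562_lc
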